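import Pool.Agent.H94.LP5.H74.V7.FinD
import Pool.Agent.H94.LP5.M63

/-!
# Isolated singularities at general points and non-speciality in high dimension

From `Crit M` for all `M ≥ 2` (V7).
-/

namespace Pool.Agent.H48.IsoV

open Finset Pool.Agent.H18.Fat Pool.Agent.H18.Iso Pool.Agent.H74.V7

theorem iso_final (hc : ∀ M, 2 ≤ M → Crit M) :
    (∀ d : ℕ, ∃ n₀ : ℕ, ∀ n h : ℕ, n₀ ≤ n → 1 ≤ n → ∀ m : Fin h → ℕ, (∀ i, 1 ≤ m i) →
      (ForGeneralPoints n h fun p => ∃ F ∈ fatForms n d p m, ∀ i, IsolatedAt F (p i)) →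
      ForGeneralPoints n h fun p => ImposesMaximalConditions n d p m) ∧
    (∀ M : ℕ, 1 ≤ M → ∃ S : Finset (ℕ × ℕ), ∀ n d h : ℕ, 1 ≤ n → (n, d) ∉ S →
      ∀ m : Fin h → ℕ, (∀ i, 1 ≤ m i ∧ m i ≤ M) →
      (ForGeneralPoints n h fun p => ∃ F ∈ fatForms n d p m, ∀ i, IsolatedAt F (p i)) →
      ForGeneralPoints n h fun p => ImposesMaximalConditions n d p m) ∧
    ∃ C : ℝ, 0 < C ∧ ∃ n₀ : ℕ → ℕ, ∀ n d M h : ℕ, 1 ≤ n → 1 ≤ M → ∀ m : Fin h → ℕ,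
      (∀ i, 1 ≤ m i ∧ m i ≤ M) →
      (n₀ M ≤ n ∨ C * M * (1 + (M : ℝ) / n) ^ 3 * (M : ℝ) ^ (22 / (n : ℝ)) ≤ d) →
      (ForGeneralPoints n h fun p => ∃ F ∈ fatForms n d p m, ∀ i, IsolatedAt F (p i)) →
      ForGeneralPoints n h fun p => ImposesMaximalConditions n d p m := by
  classical
  have key : ∃ C : ℝ, 0 < C ∧ ∃ n₀ : ℕ → ℕ, ∀ n d M h : ℕ, 1 ≤ n → 1 ≤ M → ∀ m : Fin h → ℕ,
      (∀ i, 1 ≤ m i ∧ m i ≤ M) →
      (n₀ M ≤ n ∨ C * M * (1 + (M : ℝ) / n) ^ 3 * (M : ℝ) ^ (22 / (n : ℝ)) ≤ d) →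
      (ForGeneralPoints n h fun p => ∃ F ∈ fatForms n d p m, ∀ i, IsolatedAt F (p i)) →
      ForGeneralPoints n h fun p => ImposesMaximalConditions n d p m := by
    obtain ⟨C, hC, r₀, H⟩ := all_degrees hc
    refine ⟨C, hC, r₀, fun n d M h hn hM m hm hcase hiso => (H n M d h hn hM m hm).1 ?_⟩
    rcases hcase with h1 | h1
    · exact Or.inr ⟨h1, pair_le hn m hiso⟩
    · exact Or.inl h1
  refine ⟨fun d => ?_, fun M hM => ?_, key⟩
  · obtain ⟨r₀, H⟩ := fixed_final hc d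
    exact ⟨r₀, fun n h hn0 hn m hm hiso => H n hn0 h m hm (pair_le hn m hiso)⟩
  · obtain ⟨C, hC, n₀, H⟩ := key
    let D : ℕ → ℕ := fun n => ⌈C * M * (1 + (M : ℝ) / n) ^ 3 * (M : ℝ) ^ (22 / (n : ℝ))⌉₊
    refine ⟨(Finset.range (n₀ M)).sigma (fun n => Finset.range (D n)) |>.image
      (fun x => (x.1, x.2)), fun n d h hn hS m hm hiso => H n d M h hn hM m hm ?_ hiso⟩
    by_cases hn0 : n₀ M ≤ n
    · exact Or.inl hn0
    · right
      have h1 : D n ≤ d := by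
        by_contra h2
        apply hS
        rw [Finset.mem_image]
        have h3 : n ∈ Finset.range (n₀ M) := Finset.mem_range.2 (by omega)
        have h4 : d ∈ Finset.range (D n) := Finset.mem_range.2 (by omega)
        exact ⟨⟨n, d⟩, Finset.mem_sigma.2 ⟨h3, h4⟩, rfl⟩
      have h2 : (D n : ℝ) ≤ d := by exact_mod_cast h1
      exact (Nat.le_ceil _).trans h2

end Pool.Agent.H48.IsoV
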